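import Mathlib
import Pool.Agent.Lib.MP_67663b_nt.OddB.FinalB
import Pool.Agent.Lib.MP_67663b_nt.MR.FreeMain

set_option autoImplicit false

namespace Pool.Agent.Results.MP_67663b_nt.FreeSlope

open Pool.MP_67663b_nt.Odd

theorem result (l : ℕ) (α : Fin l → ℝ) (hirr : ∀ i, Irrational (α i))
    (hα : ∀ i, 0 < α i) (hind : LinearIndependent ℚ α)
    (hcase : Even l ∨
      ∃ i, α i ∉ Submodule.span ℚ (insert (1 : ℝ) (α '' {j | j ≠ i}))) :
    Filter.Tendsto
      (fun N : ℕ => (1 / Real.log (N : ℝ)) *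
        ∑ n ∈ Finset.Icc 1 N, (1 / (n : ℝ)) *
          ((-1 : ℝ) ^ ArithmeticFunction.cardFactors n *
            ∏ i : Fin l, (-1 : ℝ) ^ ArithmeticFunction.cardFactors (⌊α i * (n : ℝ)⌋.toNat)))
      Filter.atTop (nhds 0) := by
  have hind' : ∀ c : Fin l → ℤ, ∑ i, (c i : ℝ) * α i = 0 → ∀ i, c i = 0 := by
    intro c h i
    rw [Fintype.linearIndependent_iff] at hind
    have := hind (fun i => (c i : ℚ)) (by
      simp only [Rat.smul_def]
      push_cast
      exact h) i
    exact_mod_cast this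
  rcases hcase with hl | ⟨i0, hi0⟩
  · have h := main_full α hα hirr hind' (by simpa using hl)
    refine h.congr fun N => ?_
    unfold logMean
    congr 1
  · have hfree : ∀ (c0 : ℤ) (c : Fin l → ℤ), (c0 : ℝ) + ∑ i, (c i : ℝ) * α i = 0 → c i0 = 0 := by
      intro c0 c h
      by_contra hne
      refine hi0 ?_
      have hne' : ((c i0 : ℤ) : ℝ) ≠ 0 := by exact_mod_cast hne
      have e : α i0 = ((-(c0 : ℚ) / (c i0 : ℚ)) : ℚ) • (1 : ℝ) +
          ∑ j ∈ Finset.univ.erase i0, ((-(c j : ℚ) / (c i0 : ℚ)) : ℚ) • α j := by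
        have h2 : ∑ j ∈ Finset.univ.erase i0, ((-(c j : ℚ) / (c i0 : ℚ)) : ℚ) • α j =
            -(∑ j ∈ Finset.univ.erase i0, (c j : ℝ) * α j) / (c i0 : ℝ) := by
          rw [← Finset.sum_neg_distrib, Finset.sum_div]
          refine Finset.sum_congr rfl fun j _ => ?_
          rw [Rat.smul_def]
          push_cast
          ring
        rw [h2, Rat.smul_def]
        push_cast
        rw [← Finset.add_sum_erase _ _ (Finset.mem_univ i0)] at h
        field_simp
        linarith
      rw [e]
      refine Submodule.add_mem _ (Submodule.smul_mem _ _ (Submodule.subset_span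
        (Set.mem_insert _ _))) (Submodule.sum_mem _ fun j hj => Submodule.smul_mem _ _
        (Submodule.subset_span (Set.mem_insert_of_mem _ ⟨j, Finset.ne_of_mem_erase hj, rfl⟩)))
    have h := Pool.MP_67663b_nt.MR.main_free α hα hind' i0 hfree
    refine h.congr fun N => ?_
    unfold logMean
    congr 1

end Pool.Agent.Results.MP_67663b_nt.FreeSlope
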