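import Mathlib
import Pool.Agent.Lib.MP_67663b_nt.PS.Main

set_option autoImplicit false

namespace Pool.Agent.Results.MP_67663b_nt.PositiveSlopes

open Pool.MP_67663b_nt.Odd

theorem result (l : ℕ) (α : Fin l → ℝ) (hirr : ∀ i, Irrational (α i))
    (hα : ∀ i, 0 < α i) (hind : LinearIndependent ℚ α)
    (c : Fin l → ℚ) (hc : ∑ i, (c i : ℝ) * α i = 1) :
    Filter.Tendsto
      (fun N : ℕ => (1 / Real.log (N : ℝ)) *
        ∑ n ∈ Finset.Icc 1 N, (1 / (n : ℝ)) *
          (if (n : ℚ) = ∑ i, c i * (⌊α i * (n : ℝ)⌋ : ℚ) then 0 else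
            (-1 : ℝ) ^ ArithmeticFunction.cardFactors n *
            ∏ i : Fin l, (-1 : ℝ) ^ ArithmeticFunction.cardFactors (⌊α i * (n : ℝ)⌋.toNat)))
      Filter.atTop (nhds 0) ∧
    ((∀ i, 0 ≤ c i) →
      Filter.Tendsto
        (fun N : ℕ => (1 / Real.log (N : ℝ)) *
          ∑ n ∈ Finset.Icc 1 N, (1 / (n : ℝ)) *
            ((-1 : ℝ) ^ ArithmeticFunction.cardFactors n *
              ∏ i : Fin l, (-1 : ℝ) ^ ArithmeticFunction.cardFactors (⌊α i * (n : ℝ)⌋.toNat)))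
        Filter.atTop (nhds 0)) ∧
    (Filter.Tendsto
        (fun N : ℕ => (1 / Real.log (N : ℝ)) *
          ∑ n ∈ Finset.Icc 1 N, (1 / (n : ℝ)) *
            ((-1 : ℝ) ^ ArithmeticFunction.cardFactors n *
              ∏ i : Fin l, (-1 : ℝ) ^ ArithmeticFunction.cardFactors (⌊α i * (n : ℝ)⌋.toNat)))
        Filter.atTop (nhds 0) ↔
      Filter.Tendsto
        (fun N : ℕ => (1 / Real.log (N : ℝ)) *
          ∑ n ∈ Finset.Icc 1 N, (1 / (n : ℝ)) *
            (if (n : ℚ) = ∑ i, c i * (⌊α i * (n : ℝ)⌋ : ℚ) then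
              (-1 : ℝ) ^ ArithmeticFunction.cardFactors n *
              ∏ i : Fin l, (-1 : ℝ) ^ ArithmeticFunction.cardFactors (⌊α i * (n : ℝ)⌋.toNat)
              else 0))
        Filter.atTop (nhds 0)) := by
  have hind' : ∀ c : Fin l → ℤ, ∑ i, (c i : ℝ) * α i = 0 → ∀ i, c i = 0 := by
    intro c h i
    rw [Fintype.linearIndependent_iff] at hind
    have := hind (fun i => (c i : ℚ)) (by
      simp only [Rat.smul_def]
      push_cast
      exact h) i
    exact_mod_cast this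
  have hfl : ∀ (i : Fin l) (n : ℕ), (⌊α i * (n : ℝ)⌋ : ℚ) = (bt (α i) n : ℚ) := by
    intro i n
    have h0 : (0:ℝ) ≤ α i * (n : ℝ) := by
      have := hα i
      positivity
    unfold bt
    have h1 : ((⌊α i * (n : ℝ)⌋₊ : ℕ) : ℤ) = ⌊α i * (n : ℝ)⌋ := Int.natCast_floor_eq_floor h0
    rw [← h1]
    push_cast
    rfl
  obtain ⟨hA, hB, hC⟩ := Pool.MP_67663b_nt.PS.main_rel α hα hirr hind' c hc
  have e1 : (fun N : ℕ => (1 / Real.log (N : ℝ)) *
        ∑ n ∈ Finset.Icc 1 N, (1 / (n : ℝ)) *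
          (if (n : ℚ) = ∑ i, c i * (⌊α i * (n : ℝ)⌋ : ℚ) then 0 else
            (-1 : ℝ) ^ ArithmeticFunction.cardFactors n *
            ∏ i : Fin l, (-1 : ℝ) ^ ArithmeticFunction.cardFactors (⌊α i * (n : ℝ)⌋.toNat))) =
      logMean (fun n => if (n : ℚ) = ∑ i, c i * (bt (α i) n : ℚ) then 0 else
        lam n * ∏ i, lam (bt (α i) n)) := by
    funext N
    unfold logMean
    simp only [hfl]
    rfl
  have e2 : (fun N : ℕ => (1 / Real.log (N : ℝ)) *
          ∑ n ∈ Finset.Icc 1 N, (1 / (n : ℝ)) *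
            ((-1 : ℝ) ^ ArithmeticFunction.cardFactors n *
              ∏ i : Fin l, (-1 : ℝ) ^ ArithmeticFunction.cardFactors (⌊α i * (n : ℝ)⌋.toNat))) =
      logMean (fun n => lam n * ∏ i, lam (bt (α i) n)) := by
    funext N
    unfold logMean
    rfl
  have e3 : (fun N : ℕ => (1 / Real.log (N : ℝ)) *
          ∑ n ∈ Finset.Icc 1 N, (1 / (n : ℝ)) *
            (if (n : ℚ) = ∑ i, c i * (⌊α i * (n : ℝ)⌋ : ℚ) then
              (-1 : ℝ) ^ ArithmeticFunction.cardFactors n *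
              ∏ i : Fin l, (-1 : ℝ) ^ ArithmeticFunction.cardFactors (⌊α i * (n : ℝ)⌋.toNat)
              else 0)) =
      logMean (fun n => if (n : ℚ) = ∑ i, c i * (bt (α i) n : ℚ) then
        lam n * ∏ i, lam (bt (α i) n) else 0) := by
    funext N
    unfold logMean
    simp only [hfl]
    rfl
  rw [e1, e2, e3]
  exact ⟨hA, hB, hC⟩

end Pool.Agent.Results.MP_67663b_nt.PositiveSlopes
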